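import Pool.Agent.H89.DF.TargetsB

/-!
# LCR: some local factor of small weight is not small (board dfx_modules), helper70

The power `sin θ ^ N` with `N ≡ κ` modulo `2` is a combination of the trigonometric factors of
weight at most `N` with coefficients of total mass `1`; for `N` of size `(1 + |t| + |ν|) ^ 2` its
integral against the local weight is not small.
-/

set_option autoImplicit false

open MeasureTheory Set Filter
open scoped Real Matrix MatrixGroups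
open Pool.Agent.H31.CN Pool.Agent.H89.FM Pool.Agent.H89.FC Pool.Agent.H89.DF

namespace Pool.Agent.H70.DF

/-! ### The trigonometric identity -/

lemma ur_sub (hTRA : T_TRA) (τ : ℝ) :
    ur τ ≠ 0 ∧ ur τ - (ur τ)⁻¹ = 2 * Complex.I * ((Real.cosh τ : ℝ) : ℂ)⁻¹ := by
  have h1 := hTRA.1 τ
  have hn := hTRA.2.1 τ
  have h0 : ur τ ≠ 0 := by
    intro h
    rw [h, norm_zero] at hn
    exact zero_ne_one hn
  have hc : ((Real.cosh τ : ℝ) : ℂ) ≠ 0 := by
    exact_mod_cast (Real.cosh_pos τ).ne'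
  have hcs : ((Real.cosh τ : ℝ) : ℂ) ^ 2 = ((Real.sinh τ : ℝ) : ℂ) ^ 2 + 1 := by
    have := Real.cosh_sq τ
    exact_mod_cast this
  have hI : Complex.I ^ 2 = -1 := Complex.I_sq
  have hinv : (ur τ)⁻¹ = ((Real.sinh τ : ℝ) - Complex.I) / ((Real.cosh τ : ℝ) : ℂ) := by
    refine inv_eq_of_mul_eq_one_right ?_
    rw [h1, div_mul_div_comm, ← sq, hcs]
    have h2 : (((Real.sinh τ : ℝ) : ℂ) + Complex.I) * (((Real.sinh τ : ℝ) : ℂ) - Complex.I) =
        ((Real.sinh τ : ℝ) : ℂ) ^ 2 + 1 := by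
      ring_nf
      rw [hI]
      ring
    rw [h2]
    refine div_self ?_
    rw [← hcs]
    exact pow_ne_zero 2 hc
  refine ⟨h0, ?_⟩
  rw [hinv, h1]
  field_simp
  ring

lemma expand (hTRA : T_TRA) (κ N : ℕ) (hpar : (-1 : ℂ) ^ N = (-1) ^ κ) (τ : ℝ) :
    (2 * Complex.I) ^ N * (((Real.cosh τ : ℝ) : ℂ)⁻¹) ^ N =
      ∑ m ∈ Finset.range (N + 1), ((-1) ^ (N - m) * (N.choose m : ℂ)) *
        trr κ (2 * (m : ℤ) - N) τ := by
  obtain ⟨h0, h1⟩ := ur_sub hTRA τ
  rw [← mul_pow, ← h1]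
  set u := ur τ with hu
  have hA : ∀ v : ℂ, v ≠ 0 → (v - v⁻¹) ^ N = ∑ m ∈ Finset.range (N + 1),
      ((-1) ^ (N - m) * (N.choose m : ℂ)) * v ^ (2 * (m : ℤ) - N) := by
    intro v hv
    rw [sub_eq_add_neg, add_pow]
    refine Finset.sum_congr rfl fun m hm => ?_
    have hm' : m ≤ N := Nat.lt_succ_iff.mp (Finset.mem_range.mp hm)
    have e : v ^ (2 * (m : ℤ) - N) = v ^ m * (v⁻¹) ^ (N - m) := by
      rw [← zpow_natCast v m, inv_pow, ← zpow_natCast v (N - m), ← zpow_neg, ← zpow_add₀ hv]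
      congr 1
      push_cast [hm']
      ring
    rw [e, neg_pow (v⁻¹) (N - m)]
    ring
  have h2 : (u - u⁻¹) ^ N = ((u - u⁻¹) ^ N + (-1) ^ κ * (u⁻¹ - (u⁻¹)⁻¹) ^ N) / 2 := by
    have h3 : (u⁻¹ - (u⁻¹)⁻¹) ^ N = (-1) ^ κ * (u - u⁻¹) ^ N := by
      rw [inv_inv, ← neg_sub u u⁻¹, neg_pow, hpar]
    have h4 : ((-1 : ℂ) ^ κ) * (-1) ^ κ = 1 := by
      rw [← mul_pow]
      norm_num
    rw [h3, ← mul_assoc, h4]
    ring
  rw [h2, hA u h0, hA u⁻¹ (inv_ne_zero h0), Finset.mul_sum, ← Finset.sum_add_distrib,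
    Finset.sum_div]
  refine Finset.sum_congr rfl fun m _ => ?_
  unfold trr
  rw [← hu, inv_zpow, ← zpow_neg]
  ring

lemma trr_neg (κ : ℕ) (m : ℤ) (τ : ℝ) : trr κ (-m) τ = (-1) ^ κ * trr κ m τ := by
  unfold trr
  have h4 : ((-1 : ℂ) ^ κ) * (-1) ^ κ = 1 := by
    rw [← mul_pow]
    norm_num
  rw [neg_neg]
  linear_combination (-(1 / 2) * ur τ ^ (-m)) * h4

lemma crr_neg (κ : ℕ) (m : ℤ) (ν : ℝ) (s : ℂ) : crr κ (-m) ν s = (-1) ^ κ * crr κ m ν s := by
  unfold crr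
  rw [← integral_const_mul]
  refine integral_congr_ae (Eventually.of_forall fun τ => ?_)
  simp only [trr_neg]
  ring

lemma crr_natAbs (κ : ℕ) (m : ℤ) (ν : ℝ) (s : ℂ) :
    ‖crr κ (m.natAbs : ℤ) ν s‖ = ‖crr κ m ν s‖ := by
  rcases Int.natAbs_eq m with h | h
  · rw [← h]
  · have h2 : ((m.natAbs : ℕ) : ℤ) = -m := by omega
    rw [h2, crr_neg, norm_mul, norm_pow, norm_neg, norm_one, one_pow, one_mul]

/-! ### The integral of the power of the hyperbolic cosine -/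

/-- the test integral -/
noncomputable def tI (N : ℕ) (ν : ℝ) (s : ℂ) : ℂ :=
  ∫ τ : ℝ, (((Real.cosh τ : ℝ) : ℂ)⁻¹) ^ N * (((Real.cosh τ : ℝ) : ℂ) ^ (-s) *
    Complex.exp (-(((ν * τ : ℝ) : ℂ) * Complex.I)))

lemma exists_weight (hTRA : T_TRA) (hCRI : T_CRI) (κ N : ℕ) (hpar : (-1 : ℂ) ^ N = (-1) ^ κ)
    (ν : ℝ) (s : ℂ) (hs : 0 < s.re) :
    ∃ m : ℕ, m ≤ N ∧ ‖tI N ν s‖ ≤ ‖crr κ m ν s‖ := by
  have hint := fun m : ℤ => ((hCRI κ m ν).2 s hs).2
  have h1 : (2 * Complex.I) ^ N * tI N ν s = ∑ m ∈ Finset.range (N + 1),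
      ((-1) ^ (N - m) * (N.choose m : ℂ)) * crr κ (2 * (m : ℤ) - N) ν s := by
    unfold tI crr
    rw [← integral_const_mul]
    simp_rw [← integral_const_mul]
    rw [← integral_finsetSum]
    · refine integral_congr_ae (Eventually.of_forall fun τ => ?_)
      show (2 * Complex.I) ^ N * ((((Real.cosh τ : ℝ) : ℂ)⁻¹) ^ N *
        (((Real.cosh τ : ℝ) : ℂ) ^ (-s) * Complex.exp (-(((ν * τ : ℝ) : ℂ) * Complex.I)))) = _
      rw [← mul_assoc, expand hTRA κ N hpar τ, Finset.sum_mul]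
      refine Finset.sum_congr rfl fun m _ => ?_
      ring
    · intro m _
      exact (hint _).const_mul _
  have h2 : ∑ m ∈ Finset.range (N + 1), (N.choose m : ℝ) * ‖tI N ν s‖ ≤
      ∑ m ∈ Finset.range (N + 1), (N.choose m : ℝ) * ‖crr κ (2 * (m : ℤ) - N) ν s‖ := by
    calc ∑ m ∈ Finset.range (N + 1), (N.choose m : ℝ) * ‖tI N ν s‖
        = ‖(2 * Complex.I) ^ N * tI N ν s‖ := by
          rw [← Finset.sum_mul, norm_mul, norm_pow, norm_mul, Complex.norm_I, mul_one,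
            Complex.norm_ofNat]
          congr 1
          exact_mod_cast Nat.sum_range_choose N
      _ = ‖∑ m ∈ Finset.range (N + 1),
            ((-1) ^ (N - m) * (N.choose m : ℂ)) * crr κ (2 * (m : ℤ) - N) ν s‖ := by rw [h1]
      _ ≤ ∑ m ∈ Finset.range (N + 1),
            ‖((-1) ^ (N - m) * (N.choose m : ℂ)) * crr κ (2 * (m : ℤ) - N) ν s‖ :=
          norm_sum_le _ _
      _ = _ := by
          refine Finset.sum_congr rfl fun m _ => ?_
          rw [norm_mul, norm_mul, norm_pow, norm_neg, norm_one, one_pow, one_mul,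
            Complex.norm_natCast]
  obtain ⟨m, hm, hle⟩ := Finset.exists_le_of_sum_le ⟨0, by simp⟩ h2
  have hm' : m ≤ N := Nat.lt_succ_iff.mp (Finset.mem_range.mp hm)
  have hpos : (0 : ℝ) < N.choose m := by exact_mod_cast Nat.choose_pos hm'
  refine ⟨(2 * (m : ℤ) - N).natAbs, by omega, ?_⟩
  rw [crr_natAbs]
  exact le_of_mul_le_mul_left hle hpos

/-! ### Real integrals -/

lemma cosh_int (hCRI : T_CRI) {p : ℝ} (hp : 0 < p) :
    Integrable (fun τ : ℝ => (Real.cosh τ) ^ (-p)) := by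
  have := ((hCRI 0 0 0).2 (p : ℂ) (by simpa using hp)).1
  simpa using this

lemma cosh_rpow_cont (p : ℝ) : Continuous (fun τ : ℝ => (Real.cosh τ) ^ p) :=
  Real.continuous_cosh.rpow_const fun τ => Or.inl (Real.cosh_pos τ).ne'

lemma abs_sinh_le (τ : ℝ) : |Real.sinh τ| ≤ Real.cosh τ := by
  rw [← abs_of_pos (Real.cosh_pos τ), ← sq_le_sq, Real.cosh_sq]
  linarith

lemma sinh_int (hCRI : T_CRI) {p : ℝ} (hp : 2 < p) :
    Integrable (fun τ : ℝ => (Real.sinh τ) ^ 2 * (Real.cosh τ) ^ (-p)) := by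
  refine (cosh_int hCRI (p := p - 2) (by linarith)).mono' ?_ (Eventually.of_forall fun τ => ?_)
  · exact ((Real.continuous_sinh.pow 2).mul (cosh_rpow_cont _)).aestronglyMeasurable
  · have hc := Real.cosh_pos τ
    have hp0 : 0 < Real.cosh τ ^ (-p) := Real.rpow_pos_of_pos hc _
    rw [Real.norm_of_nonneg (by positivity)]
    have e : Real.cosh τ ^ (-(p - 2)) = Real.cosh τ ^ 2 * Real.cosh τ ^ (-p) := by
      rw [← Real.rpow_natCast, ← Real.rpow_add hc]
      congr 1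
      push_cast
      ring
    rw [e]
    have : Real.sinh τ ^ 2 ≤ Real.cosh τ ^ 2 := by
      rw [Real.cosh_sq]
      linarith
    gcongr

lemma sinh_ident (hCRI : T_CRI) {p : ℝ} (hp : 2 < p) :
    (p - 2) * ∫ τ : ℝ, (Real.sinh τ) ^ 2 * (Real.cosh τ) ^ (-p) =
      ∫ τ : ℝ, (Real.cosh τ) ^ (-p) := by
  have hi1 := cosh_int hCRI (p := p) (by linarith)
  have hi2 := sinh_int hCRI hp
  have hd : ∀ τ : ℝ, HasDerivAt (fun τ : ℝ => Real.sinh τ * Real.cosh τ ^ (1 - p))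
      (Real.cosh τ ^ (-p) - (p - 2) * (Real.sinh τ ^ 2 * Real.cosh τ ^ (-p))) τ := by
    intro τ
    have hc := Real.cosh_pos τ
    have h1 := (Real.hasDerivAt_sinh τ).mul
      ((Real.hasDerivAt_cosh τ).rpow_const (p := 1 - p) (Or.inl hc.ne'))
    refine h1.congr_deriv ?_
    have e1 : Real.cosh τ ^ (1 - p) = Real.cosh τ * Real.cosh τ ^ (-p) := by
      rw [sub_eq_add_neg, Real.rpow_add hc, Real.rpow_one]
    have e2 : Real.cosh τ ^ (1 - p - 1) = Real.cosh τ ^ (-p) := by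
      congr 1
      ring
    rw [e1, e2]
    have hs := Real.cosh_sq τ
    linear_combination (Real.cosh τ ^ (-p)) * hs
  have hf : Integrable (fun τ : ℝ => Real.sinh τ * Real.cosh τ ^ (1 - p)) := by
    refine (cosh_int hCRI (p := p - 2) (by linarith)).mono' ?_ (Eventually.of_forall fun τ => ?_)
    · exact (Real.continuous_sinh.mul (cosh_rpow_cont _)).aestronglyMeasurable
    · have hc := Real.cosh_pos τ
      have hp0 : 0 < Real.cosh τ ^ (1 - p) := Real.rpow_pos_of_pos hc _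
      rw [norm_mul, Real.norm_eq_abs, Real.norm_of_nonneg hp0.le]
      have e : Real.cosh τ ^ (-(p - 2)) = Real.cosh τ * Real.cosh τ ^ (1 - p) := by
        nth_rewrite 2 [← Real.rpow_one (Real.cosh τ)]
        rw [← Real.rpow_add hc]
        congr 1
        ring
      rw [e]
      exact mul_le_mul_of_nonneg_right (abs_sinh_le τ) hp0.le
  have h0 := integral_eq_zero_of_hasDerivAt_of_integrable hd (hi1.sub (hi2.const_mul _)) hf
  rw [integral_sub hi1 (hi2.const_mul _), integral_const_mul] at h0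
  linarith

lemma cosh_int_lower (hCRI : T_CRI) {p : ℝ} (hp : 1 ≤ p) :
    1 / (2 * p) ≤ ∫ τ : ℝ, (Real.cosh τ) ^ (-p) := by
  have hp0 : 0 < p := by linarith
  have hi := cosh_int hCRI hp0
  have hpt : ∀ τ ∈ Icc (0 : ℝ) (1 / p), (1 / 2 : ℝ) ≤ Real.cosh τ ^ (-p) := by
    intro τ hτ
    have h1 : τ ^ 2 ≤ 1 / p := by
      have h2 : τ ^ 2 ≤ (1 / p) ^ 2 := pow_le_pow_left₀ hτ.1 hτ.2 2
      have h3 : (1 / p) ^ 2 ≤ 1 / p := by
        have h4 : 1 / p ≤ 1 := by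
          rw [div_le_one hp0]
          exact hp
        have h5 : 0 < 1 / p := by positivity
        nlinarith
      linarith
    have h2 : Real.cosh τ ^ p ≤ 2 := by
      calc Real.cosh τ ^ p ≤ (Real.exp (τ ^ 2 / 2)) ^ p :=
            Real.rpow_le_rpow (Real.cosh_pos τ).le (Real.cosh_le_exp_half_sq τ) hp0.le
        _ = Real.exp (τ ^ 2 / 2 * p) := by rw [← Real.exp_mul]
        _ ≤ Real.exp (1 / 2) := by
            apply Real.exp_le_exp.mpr
            rw [le_div_iff₀ hp0] at h1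
            nlinarith
        _ ≤ 2 := by
            have h6 : Real.exp (1 / 2) ^ 2 ≤ 2 ^ 2 := by
              rw [← Real.exp_nat_mul]
              have := Real.exp_one_lt_d9
              norm_num
              linarith
            exact le_of_sq_le_sq h6 (by norm_num)
    rw [Real.rpow_neg (Real.cosh_pos τ).le, ← one_div]
    exact one_div_le_one_div_of_le (Real.rpow_pos_of_pos (Real.cosh_pos τ) p) h2
  calc 1 / (2 * p) = ∫ _ in Icc (0 : ℝ) (1 / p), (1 / 2 : ℝ) := by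
        rw [setIntegral_const, Real.volume_real_Icc_of_le (by positivity)]
        simp only [sub_zero, smul_eq_mul]
        field_simp
    _ ≤ ∫ τ in Icc (0 : ℝ) (1 / p), Real.cosh τ ^ (-p) := by
        refine setIntegral_mono_on ?_ hi.integrableOn measurableSet_Icc hpt
        exact integrableOn_const (by simp) (by simp)
    _ ≤ ∫ τ : ℝ, Real.cosh τ ^ (-p) :=
        setIntegral_le_integral hi (Eventually.of_forall fun τ =>
          (Real.rpow_pos_of_pos (Real.cosh_pos τ) _).le)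

/-! ### The lower bound -/

lemma integrand_eq (N : ℕ) (ν : ℝ) (s : ℂ) (τ : ℝ) :
    (((Real.cosh τ : ℝ) : ℂ)⁻¹) ^ N * (((Real.cosh τ : ℝ) : ℂ) ^ (-s) *
      Complex.exp (-(((ν * τ : ℝ) : ℂ) * Complex.I))) =
      ((Real.cosh τ ^ (-(N + s.re)) : ℝ) : ℂ) *
        Complex.exp (Complex.I * ((-(s.im * Real.log (Real.cosh τ) + ν * τ) : ℝ) : ℂ)) := by
  have hc := Real.cosh_pos τ
  have hc' : ((Real.cosh τ : ℝ) : ℂ) ≠ 0 := by exact_mod_cast hc.ne'
  have e1 : (((Real.cosh τ : ℝ) : ℂ)⁻¹) ^ N =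
      Complex.exp (-(N : ℂ) * ((Real.log (Real.cosh τ) : ℝ) : ℂ)) := by
    rw [neg_mul, Complex.exp_neg, Complex.exp_nat_mul, ← Complex.ofReal_exp, Real.exp_log hc,
      inv_pow]
  have e2 : ((Real.cosh τ : ℝ) : ℂ) ^ (-s) =
      Complex.exp (((Real.log (Real.cosh τ) : ℝ) : ℂ) * (-s)) := by
    rw [Complex.cpow_def_of_ne_zero hc', Complex.ofReal_log hc.le]
  have e3 : ((Real.cosh τ ^ (-(N + s.re)) : ℝ) : ℂ) =
      Complex.exp (((Real.log (Real.cosh τ) * (-(N + s.re)) : ℝ) : ℂ)) := by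
    rw [Real.rpow_def_of_pos hc, Complex.ofReal_exp]
  rw [e1, e2, e3, ← Complex.exp_add, ← Complex.exp_add, ← Complex.exp_add]
  congr 1
  have hs : s = (s.re : ℂ) + (s.im : ℂ) * Complex.I := (Complex.re_add_im s).symm
  conv_lhs => rw [hs]
  push_cast
  ring

lemma tI_lower (hCRI : T_CRI) (N : ℕ) (ν : ℝ) (s : ℂ) (hs : 0 < s.re)
    (hN : 4 * (|s.im| / 2 + ν ^ 2) + 1 ≤ N + s.re - 2) :
    1 / (4 * (N + s.re)) ≤ ‖tI N ν s‖ := by
  set p : ℝ := N + s.re with hp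
  have hb : 0 ≤ |s.im| / 2 + ν ^ 2 := by positivity
  have hp2 : 2 < p := by linarith
  have hp0 : 0 < p := by linarith
  have hi := cosh_int hCRI hp0
  have hi2 := sinh_int hCRI hp2
  set J : ℝ := ∫ τ : ℝ, (Real.cosh τ) ^ (-p) with hJ
  have hJl := cosh_int_lower hCRI (p := p) (by linarith)
  rw [← hJ] at hJl
  have hid := sinh_ident hCRI hp2
  rw [← hJ] at hid
  have hJ0 : 0 < J := lt_of_lt_of_le (by positivity) hJl
  set E : ℝ → ℂ := fun τ =>
    Complex.exp (Complex.I * ((-(s.im * Real.log (Real.cosh τ) + ν * τ) : ℝ) : ℂ)) with hE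
  have hlogc : Continuous fun τ : ℝ => Real.log (Real.cosh τ) :=
    Real.continuous_cosh.log fun τ => (Real.cosh_pos τ).ne'
  have hEc : Continuous E := by
    simp only [hE]
    fun_prop
  have hEn : ∀ τ, ‖E τ‖ = 1 := by
    intro τ
    simp only [hE]
    rw [mul_comm, Complex.norm_exp_ofReal_mul_I]
  have htI : tI N ν s = ∫ τ : ℝ, ((Real.cosh τ ^ (-p) : ℝ) : ℂ) * E τ := by
    unfold tI
    refine integral_congr_ae (Eventually.of_forall fun τ => ?_)
    exact integrand_eq N ν s τ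
  have hiE : Integrable fun τ : ℝ => ((Real.cosh τ ^ (-p) : ℝ) : ℂ) * E τ := by
    refine hi.mono' ?_ (Eventually.of_forall fun τ => ?_)
    · exact ((Complex.continuous_ofReal.comp (cosh_rpow_cont _)).mul hEc).aestronglyMeasurable
    · rw [norm_mul, hEn, mul_one, Complex.norm_real, Real.norm_of_nonneg
        (Real.rpow_pos_of_pos (Real.cosh_pos τ) _).le]
  have hJC : (J : ℂ) = ∫ τ : ℝ, ((Real.cosh τ ^ (-p) : ℝ) : ℂ) := by
    rw [hJ]
    exact integral_ofReal.symm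
  have hdiff : ‖tI N ν s - J‖ ≤ ∫ τ : ℝ, ((|s.im| / 2 + ν ^ 2) *
      (Real.sinh τ ^ 2 * Real.cosh τ ^ (-p)) + 1 / 4 * Real.cosh τ ^ (-p)) := by
    have hiR : Integrable fun τ : ℝ => ((Real.cosh τ ^ (-p) : ℝ) : ℂ) := hi.ofReal
    rw [htI, hJC, ← integral_sub hiE hiR]
    refine norm_integral_le_of_norm_le ((hi2.const_mul _).add (hi.const_mul _))
      (Eventually.of_forall fun τ => ?_)
    have hw : 0 < Real.cosh τ ^ (-p) := Real.rpow_pos_of_pos (Real.cosh_pos τ) _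
    have e : ((Real.cosh τ ^ (-p) : ℝ) : ℂ) * E τ - ((Real.cosh τ ^ (-p) : ℝ) : ℂ) =
        ((Real.cosh τ ^ (-p) : ℝ) : ℂ) * (E τ - 1) := by ring
    rw [e, norm_mul, Complex.norm_real, Real.norm_of_nonneg hw.le]
    have h1 : ‖E τ - 1‖ ≤ |s.im * Real.log (Real.cosh τ) + ν * τ| := by
      have := Real.norm_exp_I_mul_ofReal_sub_one_le
        (x := -(s.im * Real.log (Real.cosh τ) + ν * τ))
      rwa [Real.norm_eq_abs, abs_neg] at this
    have h2 : |τ| ≤ |Real.sinh τ| := by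
      rw [Real.abs_sinh]
      exact Real.self_le_sinh_iff.mpr (abs_nonneg τ)
    have h2' : τ ^ 2 ≤ Real.sinh τ ^ 2 := sq_le_sq.mpr h2
    have h3 : Real.log (Real.cosh τ) ≤ τ ^ 2 / 2 := by
      rw [Real.log_le_iff_le_exp (Real.cosh_pos τ)]
      exact Real.cosh_le_exp_half_sq τ
    have h3' : 0 ≤ Real.log (Real.cosh τ) := Real.log_nonneg (Real.one_le_cosh τ)
    have h4 : |ν * τ| ≤ ν ^ 2 * τ ^ 2 + 1 / 4 := by
      have : 0 ≤ (|ν * τ| - 1 / 2) ^ 2 := sq_nonneg _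
      have h5 : |ν * τ| ^ 2 = ν ^ 2 * τ ^ 2 := by rw [sq_abs]; ring
      nlinarith
    have h6 : |s.im * Real.log (Real.cosh τ)| ≤ |s.im| * (τ ^ 2 / 2) := by
      rw [abs_mul, abs_of_nonneg h3']
      exact mul_le_mul_of_nonneg_left h3 (abs_nonneg _)
    have h7 : |s.im * Real.log (Real.cosh τ) + ν * τ| ≤
        (|s.im| / 2 + ν ^ 2) * Real.sinh τ ^ 2 + 1 / 4 := by
      calc |s.im * Real.log (Real.cosh τ) + ν * τ|
          ≤ |s.im * Real.log (Real.cosh τ)| + |ν * τ| := abs_add_le _ _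
        _ ≤ |s.im| * (τ ^ 2 / 2) + (ν ^ 2 * τ ^ 2 + 1 / 4) := add_le_add h6 h4
        _ = (|s.im| / 2 + ν ^ 2) * τ ^ 2 + 1 / 4 := by ring
        _ ≤ (|s.im| / 2 + ν ^ 2) * Real.sinh τ ^ 2 + 1 / 4 := by gcongr
    calc Real.cosh τ ^ (-p) * ‖E τ - 1‖
        ≤ Real.cosh τ ^ (-p) * ((|s.im| / 2 + ν ^ 2) * Real.sinh τ ^ 2 + 1 / 4) :=
          mul_le_mul_of_nonneg_left (h1.trans h7) hw.le
      _ = _ := by ring
  rw [integral_add (hi2.const_mul _) (hi.const_mul _), integral_const_mul, integral_const_mul,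
    ← hJ] at hdiff
  have hS : ∫ τ : ℝ, Real.sinh τ ^ 2 * Real.cosh τ ^ (-p) = J / (p - 2) := by
    rw [eq_div_iff (by linarith), mul_comm]
    exact hid
  rw [hS] at hdiff
  have h8 : (|s.im| / 2 + ν ^ 2) * (J / (p - 2)) ≤ 1 / 4 * J := by
    rw [mul_div_assoc', div_le_iff₀ (by linarith)]
    nlinarith
  have h9 : J ≤ ‖tI N ν s‖ + ‖tI N ν s - J‖ := by
    calc J = ‖(J : ℂ)‖ := by rw [Complex.norm_real, Real.norm_of_nonneg hJ0.le]
      _ = ‖tI N ν s - (tI N ν s - J)‖ := by congr 1; ring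
      _ ≤ _ := norm_sub_le _ _
  have h10 : 1 / (4 * p) = 1 / (2 * p) / 2 := by
    field_simp
    norm_num
  rw [h10]
  linarith

theorem pf_CRL (hTRA : T_TRA) (hCRI : T_CRI) : T_CRL := by
  refine ⟨40, 2, by norm_num, fun κ ν s hs => ?_⟩
  have hs' := abs_le.mp hs
  have hs0 : 0 < s.re := by linarith
  have hs1 : s.re < 1 := by linarith
  set b : ℝ := 1 + |s.im| + |ν| with hb
  have hb1 : 1 ≤ b := by
    have := abs_nonneg s.im
    have := abs_nonneg ν
    linarith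
  have hb2 : 1 ≤ b ^ 2 := by nlinarith
  set K : ℕ := ⌈2 * b ^ 2⌉₊ with hK
  have hK1 : 2 * b ^ 2 ≤ K := Nat.le_ceil _
  have hK2 : (K : ℝ) < 2 * b ^ 2 + 1 := Nat.ceil_lt_add_one (by positivity)
  set N : ℕ := 2 * K + 2 + κ % 2 with hN
  have hκ2 : κ % 2 < 2 := Nat.mod_lt _ (by norm_num)
  have hNl : 4 * b ^ 2 + 2 ≤ (N : ℝ) := by
    have : ((κ % 2 : ℕ) : ℝ) ≥ 0 := by positivity
    rw [hN]
    push_cast
    push_cast at this
    linarith
  have hNu : (N : ℝ) ≤ 4 * b ^ 2 + 5 := by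
    have : ((κ % 2 : ℕ) : ℝ) ≤ 1 := by exact_mod_cast (by omega : κ % 2 ≤ 1)
    rw [hN]
    push_cast
    push_cast at this
    linarith
  have hpar : (-1 : ℂ) ^ N = (-1) ^ κ := by
    have h1 : N = 2 * (K + 1) + κ % 2 := by omega
    have h2 : κ = 2 * (κ / 2) + κ % 2 := by omega
    have e1 : (-1 : ℂ) ^ N = (-1) ^ (κ % 2) := by
      rw [h1, pow_add, pow_mul, neg_one_sq, one_pow, one_mul]
    have e2 : (-1 : ℂ) ^ κ = (-1) ^ (κ % 2) := by
      conv_lhs => rw [h2, pow_add, pow_mul, neg_one_sq, one_pow, one_mul]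
    rw [e1, e2]
  have hν : |s.im| / 2 + ν ^ 2 + 1 / 4 ≤ b ^ 2 := by
    have h1 := abs_nonneg s.im
    have h2 := abs_nonneg ν
    have h3 : ν ^ 2 = |ν| ^ 2 := (sq_abs ν).symm
    rw [h3, hb]
    nlinarith [mul_nonneg h1 h2]
  obtain ⟨m, hm, hle⟩ := exists_weight hTRA hCRI κ N hpar ν s hs0
  have hlow := tI_lower hCRI N ν s hs0 (by linarith)
  refine ⟨m, ?_, ?_⟩
  · have : (m : ℝ) ≤ N := by exact_mod_cast hm
    linarith
  · have hp : (N : ℝ) + s.re ≤ 10 * b ^ 2 := by linarith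
    have hp0 : 0 < (N : ℝ) + s.re := by linarith
    have h1 : 1 / (40 * b ^ 2) ≤ ‖crr κ m ν s‖ := by
      refine le_trans ?_ (hlow.trans hle)
      exact one_div_le_one_div_of_le (by positivity) (by linarith)
    have h2 : 0 < 40 * b ^ 2 := by positivity
    rw [div_le_iff₀ h2] at h1
    linarith

end Pool.Agent.H70.DF
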